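import Pool.Agent.H923R2.FZ.Stubs1

set_option autoImplicit false

open scoped ComplexConjugate
open MeasureTheory CompactlySupported

noncomputable section

namespace Pool.Agent.H923R2.FZ.T_MEAS

open Pool.Agent.H923R2.FP
open Pool.Agent.H923R2.FZ

variable {B : Type} [CStarAlgebra B]

/-- continuous extension -/
def ext (f : Set.Icc (0:ℝ) 1 → ℝ) (t : ℝ) : ℝ := f (Set.projIcc 0 1 zero_le_one t)

lemma ext_cont (f : C(Set.Icc (0:ℝ) 1, ℝ)) : Continuous (ext f) :=
  f.continuous.comp continuous_projIcc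

lemma tau_nonneg (τ : B →ₗ[ℂ] ℂ) (h : FTS τ) (a : B) (F : ℝ → ℝ) (hF : Continuous F)
    (h0 : ∀ t, 0 ≤ F t) : 0 ≤ (τ (cfc F a)).re := by
  have e : cfc F a = star (cfc (fun t => Real.sqrt (F t)) a) * cfc (fun t => Real.sqrt (F t)) a := by
    rw [(cfc_predicate (fun t => Real.sqrt (F t)) a : IsSelfAdjoint _).star_eq]
    rw [← cfc_mul (fun t => Real.sqrt (F t)) (fun t => Real.sqrt (F t)) a
      (hF.sqrt).continuousOn (hF.sqrt).continuousOn]
    apply cfc_congr
    intro t _
    exact (Real.mul_self_sqrt (h0 t)).symm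
  rw [e]
  exact h.nonneg _

lemma tau_real (τ : B →ₗ[ℂ] ℂ) (h : FTS τ) (a : B) (F : ℝ → ℝ) :
    τ (cfc F a) = (((τ (cfc F a)).re : ℝ) : ℂ) := by
  have e : IsSelfAdjoint (cfc F a) := cfc_predicate F a
  have := h.str (cfc F a)
  rw [e.star_eq] at this
  exact (Complex.conj_eq_iff_real.1 this.symm).elim (fun r hr => by rw [hr]; simp)

/-- the functional -/
def lam (τ : B →ₗ[ℂ] ℂ) (h : FTS τ) (a : B) (ha : IsSelfAdjoint a) :
    C_c(Set.Icc (0:ℝ) 1, ℝ) →ₚ[ℝ] ℝ where
  toFun f := (τ (cfc (ext f) a)).re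
  map_add' f g := by
    have e : ext (⇑(f + g)) = fun t => ext f t + ext g t := by
      funext t; simp [ext]
    rw [e, cfc_add a (ext f) (ext g) (ext_cont (f : C(Set.Icc (0:ℝ) 1, ℝ))).continuousOn
      (ext_cont (g : C(Set.Icc (0:ℝ) 1, ℝ))).continuousOn]
    simp
  map_smul' r f := by
    have e : ext (⇑(r • f)) = fun t => r * ext f t := by
      funext t; simp [ext]
    rw [e, cfc_const_mul r (ext f) a (ext_cont (f : C(Set.Icc (0:ℝ) 1, ℝ))).continuousOn]
    have : (r • cfc (ext f) a : B) = ((r : ℂ) • cfc (ext f) a) := by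
      exact (RCLike.real_smul_eq_coe_smul (K := ℂ) r _)
    rw [this, map_smul]
    simp
  monotone' := by
    intro f g hfg
    have e : ext g = fun t => ext f t + ext (fun x => g x - f x) t := by
      funext t; simp [ext]
    have hc : Continuous (ext (fun x => g x - f x)) :=
      ((g.continuous.sub f.continuous)).comp continuous_projIcc
    show (τ (cfc (ext f) a)).re ≤ (τ (cfc (ext g) a)).re
    rw [e, cfc_add a (ext f) _ (ext_cont (f : C(Set.Icc (0:ℝ) 1, ℝ))).continuousOn hc.continuousOn]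
    have := tau_nonneg τ h a _ hc (fun t => by
      simp only [ext]; exact sub_nonneg.2 (hfg _))
    simp only [map_add, Complex.add_re]
    linarith

theorem t_MEAS : S_MEAS := by
  intro B _ τ h a ha
  set ν := RealRMK.rieszMeasure (lam τ h a ha.1) with hν
  have key : ∀ F : ℝ → ℝ, Continuous F → ∫ x : Set.Icc (0:ℝ) 1, F x ∂ν = (τ (cfc F a)).re := by
    intro F hF
    let f : C_c(Set.Icc (0:ℝ) 1, ℝ) :=
      CompactlySupportedContinuousMap.continuousMapEquiv ⟨fun x => F x, hF.comp continuous_subtype_val⟩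
    have h1 := RealRMK.integral_rieszMeasure (lam τ h a ha.1) f
    have h2 : ∀ x : Set.Icc (0:ℝ) 1, f x = F x := fun x => rfl
    simp only [h2] at h1
    rw [hν, h1]
    show (τ (cfc (ext f) a)).re = _
    congr 2
    apply cfc_congr
    intro t ht
    have ht' := ha.2 ht
    show F (Set.projIcc 0 1 zero_le_one t) = F t
    rw [Set.projIcc_of_mem _ ht']
  haveI : IsFiniteMeasure ν := by
    haveI : IsFiniteMeasureOnCompacts ν := inferInstance
    exact CompactSpace.isFiniteMeasure
  have huniv : ν Set.univ = 1 := by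
    have h1 := key (fun _ => 1) continuous_const
    have h3 : cfc (fun _ : ℝ => (1:ℝ)) a = 1 := by
      have := cfc_const_one ℝ a ha.1
      exact this
    rw [h3, h.one] at h1
    simp only [integral_const, smul_eq_mul, mul_one, Complex.one_re] at h1
    have h4 : (ν Set.univ).toReal = 1 := h1
    have := ENNReal.ofReal_toReal (measure_ne_top ν Set.univ)
    rw [← this, h4]; simp
  refine ⟨ν.map Subtype.val, ?_, ?_, ?_⟩
  · constructor
    rw [Measure.map_apply measurable_subtype_coe MeasurableSet.univ]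
    simpa using huniv
  · rw [Measure.map_apply measurable_subtype_coe measurableSet_Icc]
    have : (Subtype.val ⁻¹' Set.Icc (0:ℝ) 1 : Set (Set.Icc (0:ℝ) 1)) = Set.univ := by
      ext x; simp [x.2.1, x.2.2]
    rw [this]; exact huniv
  · intro F hF
    rw [integral_map measurable_subtype_coe.aemeasurable hF.aestronglyMeasurable]
    rw [key F hF]
    exact tau_real τ h a F

end Pool.Agent.H923R2.FZ.T_MEAS
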