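import Mathlib

set_option autoImplicit false

/-!
Every 4-uniform shift-chain has Property B.

Time runs over `ℕ`; the four vertices of the edge at time `t` are `a t < b t < c t < d t`, all four
functions are monotone.  The proof keeps, at certain renewal times, one of two families of partial
colourings (`StA`, `StB`).
-/

namespace Pool.Agent.H222R2.ShiftChain

variable {a b c d : ℕ → ℕ}

/-- the edge at time `t` is not monochromatic -/
def Ok (a b c d : ℕ → ℕ) (χ : ℕ → Bool) (t : ℕ) : Prop :=
  χ (a t) ≠ χ (b t) ∨ χ (a t) ≠ χ (c t) ∨ χ (a t) ≠ χ (d t)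

/-- single boundary at `w` in the window at time `t` -/
def Sg (a b c d : ℕ → ℕ) (t w : ℕ) : Prop :=
  ∃ χ : ℕ → Bool, (∀ s ≤ t, Ok a b c d χ s) ∧ (∀ x, a t ≤ x → x < w → χ x = false) ∧
    (∀ x, w ≤ x → χ x = true)

/-- isolated point `w` in the window at time `t` -/
def Pr (a b c d : ℕ → ℕ) (t w : ℕ) : Prop :=
  ∃ χ : ℕ → Bool, (∀ s ≤ t, Ok a b c d χ s) ∧ (∀ x, a t ≤ x → x < w → χ x = false) ∧
    χ w = true ∧ (∀ x, w < x → χ x = false)

def StA (a b c d : ℕ → ℕ) (t : ℕ) : Prop := ∀ w, b t < w → w ≤ d t → Sg a b c d t w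

def StB (a b c d : ℕ → ℕ) (t : ℕ) : Prop :=
  (∀ w, c t < w → w ≤ d t → Sg a b c d t w) ∧ Pr a b c d t (c t)

/-- agreement below the window end keeps `Ok` -/
lemma ok_congr {χ χ' : ℕ → Bool} {s : ℕ} (hab : a s < b s) (hbc : b s < c s) (hcd : c s < d s)
    (h : ∀ x, x ≤ d s → χ' x = χ x) (hok : Ok a b c d χ s) : Ok a b c d χ' s := by
  unfold Ok at *
  rw [h (a s) (by omega), h (b s) (by omega), h (c s) (by omega), h (d s) le_rfl]
  exact hok

lemma ok_of_ad {χ : ℕ → Bool} {s : ℕ} {u v : Bool} (h1 : χ (a s) = u) (h2 : χ (d s) = v)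
    (huv : u ≠ v) : Ok a b c d χ s := by
  right; right; rw [h1, h2]; exact huv

lemma ok_of_ac {χ : ℕ → Bool} {s : ℕ} {u v : Bool} (h1 : χ (a s) = u) (h2 : χ (c s) = v)
    (huv : u ≠ v) : Ok a b c d χ s := by
  right; left; rw [h1, h2]; exact huv

lemma ok_of_bd {χ : ℕ → Bool} {s : ℕ} {u v : Bool} (h1 : χ (b s) = u) (h2 : χ (d s) = v)
    (huv : u ≠ v) : Ok a b c d χ s := by
  unfold Ok
  by_contra hcon
  push Not at hcon
  obtain ⟨e1, _, e3⟩ := hcon
  apply huv
  rw [← h1, ← h2, ← e1, ← e3]

lemma ok_flip {χ : ℕ → Bool} {s : ℕ} (h : Ok a b c d χ s) : Ok a b c d (fun x => !(χ x)) s := by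
  unfold Ok at *
  rcases h with h | h | h
  · left; intro e; apply h; simpa using e
  · right; left; intro e; apply h; simpa using e
  · right; right; intro e; apply h; simpa using e

section
variable (ma : Monotone a) (mb : Monotone b) (mc : Monotone c) (md : Monotone d)
variable (hab : ∀ t, a t < b t) (hbc : ∀ t, b t < c t) (hcd : ∀ t, c t < d t)

include ma md in
/-- a single boundary that stays inside the window survives -/
lemma persist {t t1 w : ℕ} (htt : t ≤ t1) (h : Sg a b c d t w) (hw : a t1 < w) (hw2 : w ≤ d t) :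
    Sg a b c d t1 w := by
  obtain ⟨χ, h1, h2, h3⟩ := h
  refine ⟨χ, ?_, ?_, h3⟩
  · intro s hs
    by_cases hst : s ≤ t
    · exact h1 s hst
    · have e1 : a s ≤ a t1 := ma hs
      have e2 : a t ≤ a s := ma (by omega)
      have e3 : d t ≤ d s := md (by omega)
      exact ok_of_ad (h2 (a s) e2 (by omega)) (h3 (d s) (by omega)) (by simp)
  · intro x hx hx2
    have e2 : a t ≤ a t1 := ma htt
    exact h2 x (by omega) hx2

include ma mc md hab hbc hcd in
/-- a new single boundary `w` from the single boundary `y` -/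
lemma newSingle {t t1 y w : ℕ} (htt : t < t1) (h : Sg a b c d t y) (hy : y ≤ d t)
    (hay : ∀ s, t ≤ s → s < t1 → a s < y) (hay1 : y ≤ a t1) (hw : d t < w) (hw1 : w ≤ d t1)
    (hwc : c t1 < w) (hc : ∀ s, t < s → s < t1 → w ≤ d s → y ≤ c s) :
    Sg a b c d t1 w := by
  obtain ⟨χ, h1, h2, h3⟩ := h
  have hat := hay t le_rfl htt
  set χ' : ℕ → Bool := fun x => if x < w then χ x else false with hχ'
  have v1 : ∀ x, x < w → χ' x = χ x := fun x hx => by simp [hχ', hx]
  have v2 : ∀ x, w ≤ x → χ' x = false := fun x hx => by simp [hχ', Nat.not_lt.mpr hx]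
  have hok : ∀ s ≤ t1, Ok a b c d χ' s := by
    intro s hs
    by_cases hst : s ≤ t
    · have e1 : d s ≤ d t := md hst
      exact ok_congr (hab s) (hbc s) (hcd s) (fun x hx => v1 x (by omega)) (h1 s hst)
    · push Not at hst
      have e1 : a s ≤ a t1 := ma hs
      have e2 : a t ≤ a s := ma hst.le
      have e3 : d t ≤ d s := md hst.le
      have e4 : c s ≤ c t1 := mc hs
      have f1 := hab s
      have f2 := hbc s
      have f3 := hcd s
      by_cases hs1 : s < t1
      · have g1 := hay s hst.le hs1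
        have va : χ' (a s) = false := by rw [v1 _ (by omega)]; exact h2 _ e2 g1
        by_cases hdw : d s < w
        · have vd : χ' (d s) = true := by rw [v1 _ hdw]; exact h3 _ (by omega)
          exact ok_of_ad va vd (by simp)
        · have g2 := hc s hst hs1 (by omega)
          have vc : χ' (c s) = true := by rw [v1 _ (by omega)]; exact h3 _ g2
          exact ok_of_ac va vc (by simp)
      · have : s = t1 := by omega
        subst this
        have va : χ' (a s) = true := by rw [v1 _ (by omega)]; exact h3 _ hay1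
        exact ok_of_ad va (v2 _ hw1) (by simp)
  have f1 := hab t1
  have f2 := hbc t1
  refine ⟨fun x => !(χ' x), fun s hs => ok_flip (hok s hs), ?_, ?_⟩
  · intro x hx hx2
    have : χ' x = true := by rw [v1 _ hx2]; exact h3 _ (by omega)
    simp [this]
  · intro x hx
    simp [v2 x hx]

include ma mc md hab hbc hcd in
/-- the isolated point `c t1` from the single boundary `y` -/
lemma newPair {t t1 y : ℕ} (htt : t < t1) (h : Sg a b c d t y) (hy : y ≤ d t)
    (hay : ∀ s, t ≤ s → s < t1 → a s < y) (hay1 : y ≤ a t1) (hw : d t < c t1)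
    (hc : ∀ s, t < s → s < t1 → c t1 ≤ d s → y ≤ c s) :
    Pr a b c d t1 (c t1) := by
  obtain ⟨χ, h1, h2, h3⟩ := h
  have hat := hay t le_rfl htt
  set q := c t1 with hq
  set χ' : ℕ → Bool := fun x => if x = q then false else χ x with hχ'
  have v1 : ∀ x, x ≠ q → χ' x = χ x := fun x hx => by simp [hχ', hx]
  have v2 : χ' q = false := by simp [hχ']
  have hok : ∀ s ≤ t1, Ok a b c d χ' s := by
    intro s hs
    by_cases hst : s ≤ t
    · have e1 : d s ≤ d t := md hst
      exact ok_congr (hab s) (hbc s) (hcd s) (fun x hx => v1 x (by omega)) (h1 s hst)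
    · push Not at hst
      have e1 : a s ≤ a t1 := ma hs
      have e2 : a t ≤ a s := ma hst.le
      have e3 : d t ≤ d s := md hst.le
      have e4 : c s ≤ c t1 := mc hs
      have f1 := hab s
      have f2 := hbc s
      have f3 := hcd s
      by_cases hs1 : s < t1
      · have g1 := hay s hst.le hs1
        have va : χ' (a s) = false := by rw [v1 _ (by omega)]; exact h2 _ e2 g1
        by_cases hdw : d s = q
        · have g2 := hc s hst hs1 (by omega)
          have vc : χ' (c s) = true := by rw [v1 _ (by omega)]; exact h3 _ g2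
          exact ok_of_ac va vc (by simp)
        · have vd : χ' (d s) = true := by rw [v1 _ hdw]; exact h3 _ (by omega)
          exact ok_of_ad va vd (by simp)
      · have : s = t1 := by omega
        subst this
        have va : χ' (a s) = true := by rw [v1 _ (by omega)]; exact h3 _ hay1
        exact ok_of_ac va v2 (by simp)
  have f1 := hab t1
  have f2 := hbc t1
  have f3 := hcd t1
  refine ⟨fun x => !(χ' x), fun s hs => ok_flip (hok s hs), ?_, ?_, ?_⟩
  · intro x hx hx2
    have : χ' x = true := by rw [v1 _ (by omega)]; exact h3 _ (by omega)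
    simp [this]
  · simp [v2]
  · intro x hx
    have : χ' x = true := by rw [v1 _ (by omega)]; exact h3 _ (by omega)
    simp [this]

include ma mb mc md hab hbc hcd in
/-- a new single boundary from the isolated point `Q = c t` -/
lemma newFromPair {t t1 t3 w : ℕ} (h : Pr a b c d t (c t))
    (hay1 : c t < a t1) (hw : d t < w) (hw3 : w ≤ d t3)
    (hwb : b t1 < w) (hc3 : ∀ s, t ≤ s → s < t3 → c s ≤ c t) :
    Sg a b c d t1 w := by
  obtain ⟨χ, h1, h2, h2', h3⟩ := h
  set χ' : ℕ → Bool := fun x => if x < w then χ x else true with hχ'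
  have v1 : ∀ x, x < w → χ' x = χ x := fun x hx => by simp [hχ', hx]
  have v2 : ∀ x, w ≤ x → χ' x = true := fun x hx => by simp [hχ', Nat.not_lt.mpr hx]
  refine ⟨χ', ?_, ?_, v2⟩
  · intro s hs
    by_cases hst : s ≤ t
    · have e1 : d s ≤ d t := md hst
      exact ok_congr (hab s) (hbc s) (hcd s) (fun x hx => v1 x (by omega)) (h1 s hst)
    · push Not at hst
      have e2 : a t ≤ a s := ma hst.le
      have e3 : c t ≤ c s := mc hst.le
      have f1 := hab s
      have f2 := hbc s
      have f3 := hcd s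
      have f4 := hcd t
      have e5 : b s ≤ b t1 := mb hs
      by_cases hdw : d s < w
      · have hs3 : s < t3 := by
          by_contra hcon
          push Not at hcon
          have : d t3 ≤ d s := md hcon
          omega
        have g1 := hc3 s hst.le hs3
        have g2 : c s = c t := by omega
        have vc : χ' (c s) = true := by rw [v1 _ (by omega), g2]; exact h2'
        have va : χ' (a s) = false := by rw [v1 _ (by omega)]; exact h2 _ e2 (by omega)
        exact ok_of_ac va vc (by simp)
      · have vd : χ' (d s) = true := v2 _ (by omega)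
        by_cases haq : a s < c t
        · have va : χ' (a s) = false := by rw [v1 _ (by omega)]; exact h2 _ e2 haq
          exact ok_of_ad va vd (by simp)
        · have vb : χ' (b s) = false := by rw [v1 _ (by omega)]; exact h3 _ (by omega)
          exact ok_of_bd vb vd (by simp)
  · intro x hx hx2
    rw [v1 _ hx2]
    exact h3 _ (by omega)

include ma mb mc md hab hbc hcd in
lemma stepA {t t1 : ℕ} (hA : StA a b c d t) (htt : t < t1)
    (hay : ∀ s, t ≤ s → s < t1 → a s < b t + 1) (hay1 : b t + 1 ≤ a t1) :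
    StA a b c d t1 ∨ StB a b c d t1 := by
  have f2 := hbc t
  have f3 := hcd t
  have k1 := hab t1
  have k2 := hbc t1
  have k3 := hcd t1
  have hS : Sg a b c d t (b t + 1) := hA _ (by omega) (by omega)
  have hcs : ∀ s, t < s → s < t1 → b t + 1 ≤ c s := fun s hs _ => by
    have : c t ≤ c s := mc hs.le
    omega
  by_cases hq : c t1 ≤ d t
  · left
    intro w hw hw1
    by_cases hwd : w ≤ d t
    · exact persist ma md htt.le (hA w (by omega) hwd) (by omega) hwd
    · exact newSingle ma mc md hab hbc hcd htt hS (by omega) hay hay1 (by omega) hw1 (by omega)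
        (fun s h1 h2 _ => hcs s h1 h2)
  · right
    refine ⟨fun w hw hw1 => newSingle ma mc md hab hbc hcd htt hS (by omega) hay hay1 (by omega)
      hw1 hw (fun s h1 h2 _ => hcs s h1 h2), ?_⟩
    exact newPair ma mc md hab hbc hcd htt hS (by omega) hay hay1 (by omega)
      (fun s h1 h2 _ => hcs s h1 h2)

include ma mb mc md hab hbc hcd in
lemma stepB {t t1 : ℕ} (hB : StB a b c d t) (htt : t < t1)
    (hay : ∀ s, t ≤ s → s < t1 → a s < c t + 1) (hay1 : c t + 1 ≤ a t1) :
    StA a b c d t1 ∨ StB a b c d t1 := by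
  classical
  have f2 := hbc t
  have f3 := hcd t
  have k1 := hab t1
  have k2 := hbc t1
  have k3 := hcd t1
  obtain ⟨hB1, hB2⟩ := hB
  have hS : Sg a b c d t (c t + 1) := hB1 _ (by omega) (by omega)
  -- first time `t3 ≥ t` with `c t3 > c t`
  have hex : ∃ s, t ≤ s ∧ c t + 1 ≤ c s := ⟨t1, htt.le, by omega⟩
  obtain ⟨t3, ⟨ht3, hc3⟩, hmin⟩ : ∃ s, (t ≤ s ∧ c t + 1 ≤ c s) ∧
      ∀ m, m < s → ¬ (t ≤ m ∧ c t + 1 ≤ c m) :=
    ⟨Nat.find hex, Nat.find_spec hex, fun m hm => Nat.find_min hex hm⟩
  have hbefore : ∀ s, t ≤ s → s < t3 → c s ≤ c t := by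
    intro s hs hs3
    by_contra hcon
    exact hmin s hs3 ⟨hs, by omega⟩
  have hdd : d t ≤ d t3 := md ht3
  have hcs : ∀ w, d t3 < w → ∀ s, t < s → s < t1 → w ≤ d s → c t + 1 ≤ c s := by
    intro w hw s hs _ hwd
    have hs3 : t3 ≤ s := by
      by_contra hcon
      push Not at hcon
      have : d s ≤ d t3 := md hcon.le
      omega
    have : c t3 ≤ c s := mc hs3
    omega
  by_cases hq : c t1 ≤ d t3
  · left
    intro w hw hw1
    by_cases hwd : w ≤ d t
    · exact persist ma md htt.le (hB1 w (by omega) hwd) (by omega) hwd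
    · by_cases hwn : w ≤ d t3
      · exact newFromPair ma mb mc md hab hbc hcd hB2 (by omega) (by omega) hwn hw hbefore
      · exact newSingle ma mc md hab hbc hcd htt hS (by omega) hay hay1 (by omega) hw1 (by omega)
          (hcs w (by omega))
  · right
    refine ⟨fun w hw hw1 => newSingle ma mc md hab hbc hcd htt hS (by omega) hay hay1 (by omega)
      hw1 hw (hcs w (by omega)), ?_⟩
    exact newPair ma mc md hab hbc hcd htt hS (by omega) hay hay1 (by omega)
      (hcs (c t1) (by omega))

include ma mb mc md hab hbc hcd in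
lemma finish {t T y : ℕ} (h : Sg a b c d t y) (hy : y ≤ d t) (hT : t ≤ T)
    (hay : ∀ s, t ≤ s → s ≤ T → a s < y) : ∃ χ : ℕ → Bool, ∀ s ≤ T, Ok a b c d χ s := by
  obtain ⟨χ, h1, _⟩ := persist ma md hT h (hay T hT le_rfl) hy
  exact ⟨χ, h1⟩

include ma mb mc md hab hbc hcd in
lemma advance {t T y : ℕ} (hy : y ≤ d t) (hS : Sg a b c d t y) (hay : a t < y) (hT : t ≤ T)
    (hstep : ∀ t1, t < t1 → (∀ s, t ≤ s → s < t1 → a s < y) → y ≤ a t1 →
      StA a b c d t1 ∨ StB a b c d t1) :
    (∃ χ : ℕ → Bool, ∀ s ≤ T, Ok a b c d χ s) ∨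
      ∃ t1, t < t1 ∧ t1 ≤ T ∧ (StA a b c d t1 ∨ StB a b c d t1) := by
  classical
  by_cases hex : ∃ s, t ≤ s ∧ s ≤ T ∧ y ≤ a s
  · right
    obtain ⟨ht1, ht1T, hyt1⟩ := Nat.find_spec hex
    have hmin := fun m (hm : m < Nat.find hex) => Nat.find_min hex hm
    set t1 := Nat.find hex with ht1def
    have hlt : t < t1 := by
      rcases Nat.lt_or_ge t t1 with h | h
      · exact h
      · exfalso
        have : t = t1 := by omega
        rw [← this] at hyt1
        omega
    refine ⟨t1, hlt, ht1T, hstep t1 hlt ?_ hyt1⟩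
    intro s hs hs1
    by_contra hcon
    exact hmin s hs1 ⟨hs, by omega, by omega⟩
  · left
    push Not at hex
    exact finish ma mb mc md hab hbc hcd hS hy hT hex

include ma mb mc md hab hbc hcd in
theorem main_aux (T : ℕ) : ∀ n t : ℕ, T - t = n → t ≤ T → (StA a b c d t ∨ StB a b c d t) →
    ∃ χ : ℕ → Bool, ∀ s ≤ T, Ok a b c d χ s := by
  intro n
  induction n using Nat.strong_induction_on with
  | _ n ih =>
    intro t hn hT hst
    have f1 := hab t
    have f2 := hbc t
    have f3 := hcd t
    have key : (∃ χ : ℕ → Bool, ∀ s ≤ T, Ok a b c d χ s) ∨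
        ∃ t1, t < t1 ∧ t1 ≤ T ∧ (StA a b c d t1 ∨ StB a b c d t1) := by
      rcases hst with hA | hB
      · exact advance ma mb mc md hab hbc hcd (y := b t + 1) (by omega) (hA _ (by omega) (by omega))
          (by omega) hT (fun t1 h1 h2 h3 => stepA ma mb mc md hab hbc hcd hA h1 h2 h3)
      · exact advance ma mb mc md hab hbc hcd (y := c t + 1) (by omega)
          (hB.1 _ (by omega) (by omega))
          (by omega) hT (fun t1 h1 h2 h3 => stepB ma mb mc md hab hbc hcd hB h1 h2 h3)
    rcases key with h | ⟨t1, h1, h2, h3⟩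
    · exact h
    · exact ih (T - t1) (by omega) t1 rfl h2 h3

include ma mb mc md hab hbc hcd in
/-- every monotone sequence of 4-sets can be 2-coloured -/
theorem core (T : ℕ) : ∃ χ : ℕ → Bool, ∀ s ≤ T, Ok a b c d χ s := by
  apply main_aux ma mb mc md hab hbc hcd T T 0 (by omega) (by omega)
  left
  intro w hw hw1
  have f1 := hab 0
  have f2 := hbc 0
  have f3 := hcd 0
  refine ⟨fun x => decide (w ≤ x), ?_, ?_, ?_⟩
  · intro s hs
    have : s = 0 := by omega
    subst this
    apply ok_of_ad (u := false) (v := true)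
    · simp; omega
    · simp; omega
    · simp
  · intro x _ hx2
    simp; omega
  · intro x hx
    simp; omega

end

end Pool.Agent.H222R2.ShiftChain
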