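import Mathlib
import Pool.Agent.H222R2.ShiftChain

set_option autoImplicit false

namespace Pool.Agent.H222R2.ShiftChain

/-- a finite nonempty chain is the range of a monotone sequence, covered by an initial segment -/
theorem exists_enum {α : Type*} [PartialOrder α] [DecidableEq α] : ∀ (n : ℕ) (C : Finset α),
    C.card = n → C.Nonempty → (∀ x ∈ C, ∀ y ∈ C, x ≤ y ∨ y ≤ x) →
    ∃ f : ℕ → α, Monotone f ∧ (∀ t, f t ∈ C) ∧ ∃ T : ℕ, ∀ x ∈ C, ∃ t ≤ T, f t = x := by
  intro n
  induction n with
  | zero =>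
    intro C hC hne _
    rw [Finset.card_eq_zero] at hC
    subst hC
    exact absurd hne Finset.not_nonempty_empty
  | succ n ih =>
    intro C hC hne hch
    obtain ⟨m, hm, hmax⟩ : ∃ m ∈ C, ∀ x ∈ C, m ≤ x → x ≤ m := by
      obtain ⟨m, hm⟩ := C.exists_maximal hne
      exact ⟨m, hm.1, fun x hx hle => hm.2 hx hle⟩
    have hle : ∀ x ∈ C, x ≤ m := by
      intro x hx
      rcases hch x hx m hm with h | h
      · exact h
      · exact hmax x hx h
    by_cases he : (C.erase m).Nonempty
    · obtain ⟨f, hf, hfm, T, hT⟩ := ih (C.erase m) (by rw [Finset.card_erase_of_mem hm, hC]; rfl) he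
        (fun x hx y hy => hch x (Finset.mem_of_mem_erase hx) y (Finset.mem_of_mem_erase hy))
      refine ⟨fun t => if t ≤ T then f t else m, ?_, ?_, T + 1, ?_⟩
      · intro s t hst
        by_cases h1 : t ≤ T
        · have h2 : s ≤ T := le_trans hst h1
          simp only [h1, h2, if_true]
          exact hf hst
        · by_cases h2 : s ≤ T
          · simp only [h1, h2, if_true, if_false]
            exact hle _ (Finset.mem_of_mem_erase (hfm s))
          · simp only [h1, h2, if_false]
            exact le_rfl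
      · intro t
        by_cases h1 : t ≤ T
        · simp only [h1, if_true]
          exact Finset.mem_of_mem_erase (hfm t)
        · simp only [h1, if_false]
          exact hm
      · intro x hx
        by_cases hxm : x = m
        · exact ⟨T + 1, le_rfl, by simp [hxm]⟩
        · obtain ⟨t, ht, hft⟩ := hT x (Finset.mem_erase.mpr ⟨hxm, hx⟩)
          exact ⟨t, by omega, by simp [ht, hft]⟩
    · rw [Finset.not_nonempty_iff_eq_empty] at he
      refine ⟨fun _ => m, monotone_const, fun _ => hm, 0, ?_⟩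
      intro x hx
      refine ⟨0, le_rfl, ?_⟩
      by_contra hcon
      have : x ∈ C.erase m := Finset.mem_erase.mpr ⟨fun h => hcon h.symm, hx⟩
      rw [he] at this
      simp at this

/-- a finite chain of increasing 4-tuples has a 2-colouring without monochromatic tuple -/
theorem tuples (C : Finset (Fin 4 → ℕ)) (hmono : ∀ x ∈ C, StrictMono x)
    (hch : ∀ x ∈ C, ∀ y ∈ C, x ≤ y ∨ y ≤ x) :
    ∃ χ : ℕ → Bool, ∀ x ∈ C, ∃ i j : Fin 4, χ (x i) ≠ χ (x j) := by
  classical
  by_cases hne : C.Nonempty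
  · obtain ⟨f, hf, hfm, T, hT⟩ := exists_enum C.card C rfl hne hch
    obtain ⟨χ, hχ⟩ := core (a := fun t => f t 0) (b := fun t => f t 1) (c := fun t => f t 2)
      (d := fun t => f t 3) (fun s t h => hf h 0) (fun s t h => hf h 1) (fun s t h => hf h 2)
      (fun s t h => hf h 3) (fun t => hmono _ (hfm t) (by decide))
      (fun t => hmono _ (hfm t) (by decide)) (fun t => hmono _ (hfm t) (by decide)) T
    refine ⟨χ, fun x hx => ?_⟩
    obtain ⟨t, ht, rfl⟩ := hT x hx
    rcases hχ t ht with h | h | h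
    · exact ⟨0, 1, h⟩
    · exact ⟨0, 2, h⟩
    · exact ⟨0, 3, h⟩
  · rw [Finset.not_nonempty_iff_eq_empty] at hne
    subst hne
    exact ⟨fun _ => true, by simp⟩

theorem final (k : ℕ) (hk : 4 ≤ k) (n : ℕ) (H : Finset (Finset ℕ))
    (hH : H ⊆ (Finset.range n).powersetCard k)
    (hch : ∀ A ∈ H, ∀ B ∈ H, ∀ (hA : A.card = k) (hB : B.card = k),
        (∀ i : Fin k, A.orderEmbOfFin hA i ≤ B.orderEmbOfFin hB i) ∨
        (∀ i : Fin k, B.orderEmbOfFin hB i ≤ A.orderEmbOfFin hA i)) :
    ∃ c : ℕ → Bool, ∀ A ∈ H, ∃ x ∈ A, ∃ y ∈ A, c x ≠ c y := by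
  classical
  have hcard : ∀ A ∈ H, A.card = k := fun A hA => (Finset.mem_powersetCard.mp (hH hA)).2
  let v : Finset ℕ → Fin 4 → ℕ := fun A =>
    if h : A.card = k then fun i => A.orderEmbOfFin h (Fin.castLE hk i) else fun i => i
  have hv : ∀ A (h : A.card = k), v A = fun i => A.orderEmbOfFin h (Fin.castLE hk i) := by
    intro A h
    simp only [v, h, dif_pos]
  obtain ⟨χ, hχ⟩ := tuples (H.image v) (by
      intro x hx
      obtain ⟨A, hA, rfl⟩ := Finset.mem_image.mp hx
      rw [hv A (hcard A hA)]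
      intro i j hij
      have hij' : Fin.castLE hk i < Fin.castLE hk j := by
        rw [Fin.lt_def] at hij ⊢
        exact hij
      exact (A.orderEmbOfFin (hcard A hA)).strictMono hij') (by
      intro x hx y hy
      obtain ⟨A, hA, rfl⟩ := Finset.mem_image.mp hx
      obtain ⟨B, hB, rfl⟩ := Finset.mem_image.mp hy
      rw [hv A (hcard A hA), hv B (hcard B hB)]
      rcases hch A hA B hB (hcard A hA) (hcard B hB) with h | h
      · left; intro i; exact h _
      · right; intro i; exact h _)
  refine ⟨χ, fun A hA => ?_⟩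
  obtain ⟨i, j, hij⟩ := hχ (v A) (Finset.mem_image_of_mem v hA)
  rw [hv A (hcard A hA)] at hij
  exact ⟨_, Finset.orderEmbOfFin_mem A (hcard A hA) _, _, Finset.orderEmbOfFin_mem A (hcard A hA) _,
    hij⟩

end Pool.Agent.H222R2.ShiftChain
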